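import Pool.Agent.H.MP_4bcbbd_co.C.Final
import Pool.Agent.H.MP_4bcbbd_co.helper8.Pack

/-!
The asymptotics of the maximal number of edges of centrally symmetric simplicial `d`-polytopes with
`2n` vertices, for all `d ≥ 4`, in terms of the cluster number `k(d)`, a finite extremal number with
`2^(d-3) ≤ k(d) ≤ (1 - 1/(d+1)) 2^(d-1)`; for `d = 5` the same for the faces of all dimensions.
-/

open Filter Topology Pool.Agent.H.MP_4bcbbd_co Pool.Agent.H.MP_4bcbbd_co.C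

theorem Pool.Agent.Results.MP_4bcbbd_co.EdgeDensity.result :
    (∀ d : ℕ, 4 ≤ d →
      IsGreatest {k : ℕ | ∃ p u : Fin k → E d, Tangent p u} (clusterNumber d) ∧
      2 ^ (d - 3) ≤ clusterNumber d ∧ (d + 1) * clusterNumber d ≤ d * 2 ^ (d - 1) ∧
      Tendsto (fun n : ℕ => (maxFaces 1 d n : ℝ) / (n : ℝ) ^ 2) atTop
        (𝓝 (2 - 1 / (clusterNumber d : ℝ)))) ∧
    clusterNumber 4 = 2 ∧ 7 ≤ clusterNumber 5 ∧
    Tendsto (fun n : ℕ => (maxFaces 2 5 n : ℝ) / (n : ℝ) ^ 2) atTop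
      (𝓝 (4 * (2 - 1 / (clusterNumber 5 : ℝ)))) ∧
    Tendsto (fun n : ℕ => (maxFaces 3 5 n : ℝ) / (n : ℝ) ^ 2) atTop
      (𝓝 (5 * (2 - 1 / (clusterNumber 5 : ℝ)))) ∧
    Tendsto (fun n : ℕ => (maxFaces 4 5 n : ℝ) / (n : ℝ) ^ 2) atTop
      (𝓝 (2 * (2 - 1 / (clusterNumber 5 : ℝ)))) := by
  refine ⟨fun d hd => ⟨cluster_greatest d, cluster_exp (by omega),
    K8.cluster_le8 (by omega), limit_edges hd⟩,
    cluster_four, cluster_five, ?_, ?_, ?_⟩
  · exact_mod_cast limit_five (i := 2) (a := 4) (b := 20) (c := 20) fun n hn => (ds_max hn).1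
  · exact_mod_cast limit_five (i := 3) (a := 5) (b := 30) (c := 30) fun n hn => (ds_max hn).2.1
  · exact_mod_cast limit_five (i := 4) (a := 2) (b := 12) (c := 12) fun n hn => (ds_max hn).2.2
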