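import Pool.Agent.H.MP_4bcbbd_co.X.Main3

/-!
Exponential gap for the face numbers of centrally symmetric simplicial polytopes: for large `n`, such a
`d`-polytope with `2 n` vertices has only an exponentially small proportion (in `d`) of all faces that the
trivial bounds allow. (1) is the general bound for the `(k - 1)`-faces, `k ≤ d / 2`, with a free parameter
`lam`; (2) is the bound for all faces of dimension at least `d / 2 - 1`, with the constant of the
centrally symmetric upper bound (the leading coefficient in the Dehn-Sommerville relations); (3) is the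
bound for `2 d / 5 ≤ k ≤ d / 2`.
-/

open Filter Pool.Agent.H.MP_4bcbbd_co

theorem Pool.Agent.Results.MP_4bcbbd_co.ExponentialGap.result :
    (∀ d k : ℕ, 1 ≤ k → 2 * k ≤ d → ∀ lam η : ℝ, 0 ≤ lam → 0 < η → ∀ᶠ n : ℕ in atTop,
      (maxFaces (k - 1) d n : ℝ) ≤
        (Real.exp (lam / Real.sqrt 2) *
          ∏ l ∈ Finset.range k, (1 - lam / ((d : ℝ) - 2 * l + 21 / 10 * lam + 6 / 5)) + η) *
        (2 ^ k * (n.choose k : ℝ))) ∧
    (∀ d j : ℕ, 2 ≤ d → d / 2 ≤ j → j ≤ d → ∀ᶠ n : ℕ in atTop,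
      (maxFaces (j - 1) d n : ℝ) ≤
        3 * Real.exp (-(d : ℝ) / 45) *
        ((((d - d / 2).choose (d - j) + if Odd d then (d / 2).choose (d - j) else 0 : ℕ) : ℝ) *
          (2 ^ (d / 2) * (n.choose (d / 2) : ℝ)))) ∧
    (∀ d k : ℕ, 1 ≤ k → 2 * k ≤ d → 2 * d ≤ 5 * k → ∀ᶠ n : ℕ in atTop,
      (maxFaces (k - 1) d n : ℝ) ≤
        2 * Real.exp (-(d : ℝ) / 1700) * (2 ^ k * (n.choose k : ℝ))) := by
  refine ⟨fun d k hk hkd lam η hlam hη => ?_, fun d j hd hj hjd => ?_, fun d k hk hkd hkd2 => ?_⟩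
  · filter_upwards [X.main3 d k hk hkd lam η hlam hη] with n hn
    calc (maxFaces (k - 1) d n : ℝ) ≤ (X.bnd d k lam + η) * 2 ^ k * (n.choose k : ℝ) := hn
      _ = _ := by unfold X.bnd; ring
  · filter_upwards [X.main3_top d hd j hj hjd] with n hn
    refine hn.trans (le_of_eq ?_)
    ring
  · filter_upwards [X.main3_mid d k hk hkd hkd2] with n hn
    refine hn.trans (le_of_eq ?_)
    ring
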