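import Pool.Agent.H.MP_4bcbbd_co.h39u.Unify
import Pool.Agent.H.MP_4bcbbd_co.h30.Two

/-!
The asymptotics of the maximal numbers of faces `M_i(d, n)` of centrally symmetric simplicial
`d`-polytopes with `2n` vertices in the range `n = d + c`, `c = o(d)`, for all `i` at once: for bounded
`c` with small relative error, for `c → ∞` up to the window of the threshold. In particular, for fixed
`c` and `k`, the asymptotics of the numbers of faces of dimension `d - 1 - k` (`k = 0`: facets).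
-/

open Filter Topology Pool.Agent.H.MP_4bcbbd_co Pool.Agent.H.MP_4bcbbd_co.F
  Pool.Agent.H.MP_4bcbbd_co.K

theorem Pool.Agent.Results.MP_4bcbbd_co.FewVertices.result :
    (∀ ε : ℝ, 0 < ε → ε < 1 → ∀ C : ℕ, ∃ (N : ℕ) (η : ℝ), 0 < η ∧
      ∀ d : ℕ, N ≤ d → ∀ c : ℕ, 1 ≤ c → (c : ℝ) ≤ η * d → ∀ i < d,
        (1 - ε) * psi c ((1 - ε) * lam c d i) - (if c ≤ C then 0 else ε) ≤
            (maxFaces i d (d + c) : ℝ) / (2 ^ (i + 1) * ((d + c).choose (i + 1) : ℝ)) ∧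
          (maxFaces i d (d + c) : ℝ) / (2 ^ (i + 1) * ((d + c).choose (i + 1) : ℝ)) ≤
            (1 + ε) * psi c ((1 + ε) * lam c d i) + (if c ≤ C then 0 else ε)) ∧
    (∀ c : ℕ, 1 ≤ c → ∀ k : ℕ,
      Tendsto (fun d : ℕ => (maxFaces (d - 1 - k) d (d + c) : ℝ) /
          (2 ^ d * (d : ℝ) ^ ((k : ℝ) + (c : ℝ) / 2))) atTop
        (𝓝 (Kc c / (2 ^ k * (k.factorial : ℝ))))) ∧
    ∀ x : ℝ, 0 ≤ x → psi 2 x = 1 - Real.exp (-4 * x ^ 2 / Real.pi ^ 2) :=
  ⟨fun _ hε hε1 C => U.unify hε hε1 C, fun _ hc k => top_faces hc k, fun _ hx => psi_two hx⟩
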