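import Pool.Agent.H.MP_4bcbbd_co.SO.Fin

/-!
The maximal face numbers of centrally symmetric simplicial 4-polytopes with `2n` vertices, up to an
error term which is linear in `n`: `M_1(4,n) = (3/2) n^2 + O(n)`, with an explicit lower bound, and
`M_3(4,n) = M_1(4,n) - 2n`, `M_2(4,n) = 2 M_3(4,n)`.
-/

open Pool.Agent.H.MP_4bcbbd_co

theorem Pool.Agent.Results.MP_4bcbbd_co.SecondOrder.result :
    ∃ C : ℝ, ∀ n : ℕ, 4 ≤ n →
      n * (n - 1) + 2 * (n ^ 2 / 4) ≤ maxFaces 1 4 n ∧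
      (maxFaces 1 4 n : ℝ) ≤ 3 / 2 * (n : ℝ) ^ 2 + C * n ∧
      maxFaces 3 4 n + 2 * n = maxFaces 1 4 n ∧
      maxFaces 2 4 n = 2 * maxFaces 3 4 n := by
  obtain ⟨C, hC⟩ := SO.main_linear
  exact ⟨C, fun n hn => ⟨maxFaces_one_ge n hn, hC n hn, maxFaces_three n hn, maxFaces_two n hn⟩⟩
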